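import Pool.Agent.LRG.StmtsB

/-!
# Squad LRG, row NOM: uniform domination of the coefficients, several variables
-/

set_option autoImplicit false

namespace Pool.Agent.LRG.H38

theorem nom : NomStmt := by
  intro p _ R _ _ m g
  let f : ℕ →o Submodule R R :=
    { toFun := fun K => Ideal.span ((fun β : Fin m →₀ ℕ => MvPowerSeries.coeff β g) ''
        {β | β.degree ≤ K})
      monotone' := by
        intro a b hab
        apply Ideal.span_mono
        apply Set.image_mono
        intro l hl
        exact le_trans hl hab }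
  obtain ⟨K, hK⟩ := (monotone_stabilizes_iff_noetherian (R := R) (M := R)).2 inferInstance f
  refine ⟨K, fun φ α => ?_⟩
  obtain ⟨β, hβ, hmax⟩ := Set.exists_max_image {β : Fin m →₀ ℕ | β.degree ≤ K}
    (fun β => ‖φ (MvPowerSeries.coeff β g)‖) (Finsupp.finite_of_degree_le K) ⟨0, by simp⟩
  have key : ∀ x ∈ Ideal.span ((fun β : Fin m →₀ ℕ => MvPowerSeries.coeff β g) ''
      {β | β.degree ≤ K}), ‖φ x‖ ≤ ‖φ (MvPowerSeries.coeff β g)‖ := by
    intro x hx
    refine Submodule.span_induction (p := fun x _ => ‖φ x‖ ≤ ‖φ (MvPowerSeries.coeff β g)‖)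
      ?_ ?_ ?_ ?_ hx
    · rintro y ⟨r, hr, rfl⟩
      exact hmax r hr
    · rw [map_zero, norm_zero]
      exact norm_nonneg _
    · intro a b _ _ ha hb
      rw [map_add]
      exact (PadicInt.nonarchimedean _ _).trans (max_le ha hb)
    · intro c a _ ha
      rw [smul_eq_mul, map_mul, norm_mul]
      calc ‖φ c‖ * ‖φ a‖ ≤ 1 * ‖φ a‖ :=
            mul_le_mul_of_nonneg_right (PadicInt.norm_le_one _) (norm_nonneg _)
        _ = ‖φ a‖ := one_mul _
        _ ≤ _ := ha
  refine ⟨β, hβ, ?_⟩
  rw [MvPowerSeries.coeff_map, MvPowerSeries.coeff_map]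
  apply key
  have hk : MvPowerSeries.coeff α g ∈ f (max K α.degree) :=
    Ideal.subset_span ⟨α, le_max_right K α.degree, rfl⟩
  rw [← hK (max K α.degree) (le_max_left K α.degree)] at hk
  exact hk

end Pool.Agent.LRG.H38
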