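import Pool.Agent.LRG.StmtsR

/-!
# Squad LRG, row RLN: linear relations
-/

set_option autoImplicit false

open Finset

namespace Pool.Agent.LRG.H38

open Pool.Agent.LRG.R

/-- an integral homogeneous system with more unknowns than equations has a primitive solution -/
theorem ker {ι κ : Type} [Fintype ι] [Fintype κ] (h : Fintype.card κ < Fintype.card ι)
    (M : ι → κ → ℤ) : ∃ k : ι → ℤ, Prim k ∧ ∀ c, ∑ i, k i * M i c = 0 := by
  have h1 : ∃ k : ι → ℤ, k ≠ 0 ∧ ∀ c, ∑ i, k i * M i c = 0 := by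
    by_contra hne
    push Not at hne
    let f : (ι → ℤ) →ₗ[ℤ] (κ → ℤ) := Matrix.vecMulLinear (Matrix.of M)
    have hf : ∀ k c, f k c = ∑ i, k i * M i c := fun k c => rfl
    have hinj : Function.Injective f := by
      rw [injective_iff_map_eq_zero]
      intro k hk
      by_contra h0
      obtain ⟨c, hc⟩ := hne k h0
      apply hc
      rw [← hf, hk]
      rfl
    exact absurd (card_le_of_injective ℤ f hinj) (not_le.2 h)
  obtain ⟨k, hk0, hk⟩ := h1
  have hne : (Finset.univ : Finset ι).Nonempty :=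
    Finset.univ_nonempty_iff.2 (Fintype.card_pos_iff.1 (by omega))
  obtain ⟨g, hg1, hg2⟩ := Finset.extract_gcd k hne
  have hd : (Finset.univ : Finset ι).gcd k ≠ 0 := by
    intro h0
    apply hk0
    ext i
    rw [hg1 i (Finset.mem_univ i), h0, zero_mul]
    rfl
  refine ⟨g, ?_, fun c => ?_⟩
  · intro q hq
    by_contra hno
    push Not at hno
    have h2 : (q : ℤ) ∣ (Finset.univ : Finset ι).gcd g := Finset.dvd_gcd fun i _ => hno i
    rw [hg2] at h2
    have h3 := Int.natAbs_dvd_natAbs.2 h2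
    simp only [Int.natAbs_natCast, Int.natAbs_one, Nat.dvd_one] at h3
    exact hq.one_lt.ne' h3
  · have h2 := hk c
    have h3 : ∀ i, k i * M i c = (Finset.univ : Finset ι).gcd k * (g i * M i c) := fun i => by
      rw [← mul_assoc, ← hg1 i (Finset.mem_univ i)]
    rw [Finset.sum_congr rfl fun i _ => h3 i, ← Finset.mul_sum] at h2
    exact (mul_eq_zero.1 h2).resolve_left hd

theorem rln : RlnStatement := by
  intro hMon hExb N m c E e g hg ι _ f hf hcard
  have hM := fun β : Fin N → Fin (e + 1) =>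
    hMon N m E e g hg (fun l => (β l : ℕ)) (fun l => Nat.lt_succ_iff.1 (β l).2)
  choose A hA1 hA2 using hM
  let κ := (Fin N → Fin E) × (Fin m → Fin (N * e * E + 1))
  have hκ : Fintype.card κ < Fintype.card ι := by
    simpa [κ] using hcard
  let M : ι → κ → ℤ := fun i c' => ∑ β : Fin N → Fin (e + 1),
    MvPolynomial.coeff (Finsupp.equivFunOnFinite.symm fun l => (β l : ℕ)) (f i) *
      MvPolynomial.coeff (Finsupp.equivFunOnFinite.symm fun l => (c'.2 l : ℕ)) (A β c'.1)
  obtain ⟨k, hk0, hk⟩ := ker hκ M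
  refine ⟨k, hk0, ?_⟩
  intro O _ _ x hx hx2
  set w : Fin m → O := fun i => x (c i) with hw
  set Λ : O := ∏ l, ev1 (g l).leadingCoeff w with hΛ
  have hΛ0 : Λ ≠ 0 := Finset.prod_ne_zero_iff.2 fun l _ => hx2 l
  have key : ∀ i, Λ ^ e * ev1 (f i) x =
      ∑ c' : κ, (M i c' : O) * ((∏ j, w j ^ (c'.2 j : ℕ)) * ∏ l, x l ^ (c'.1 l : ℕ)) := by
    intro i
    rw [hExb N e (f i) (hf i) O x, Finset.mul_sum]
    have h1 : ∀ β : Fin N → Fin (e + 1), Λ ^ e *
        (((MvPolynomial.coeff (Finsupp.equivFunOnFinite.symm fun l => (β l : ℕ)) (f i) : ℤ) : O) *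
          ∏ l, x l ^ (β l : ℕ)) = ∑ c' : κ,
        ((MvPolynomial.coeff (Finsupp.equivFunOnFinite.symm fun l => (β l : ℕ)) (f i) *
        MvPolynomial.coeff (Finsupp.equivFunOnFinite.symm fun l => (c'.2 l : ℕ)) (A β c'.1) : ℤ) :
          O) * ((∏ j, w j ^ (c'.2 j : ℕ)) * ∏ l, x l ^ (c'.1 l : ℕ)) := by
      intro β
      rw [mul_left_comm, hA2 β O w x hx, Fintype.sum_prod_type, Finset.mul_sum]
      refine Finset.sum_congr rfl fun γ _ => ?_
      rw [hExb m (N * e * E) (A β γ) (hA1 β γ) O w, Finset.sum_mul, Finset.mul_sum]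
      refine Finset.sum_congr rfl fun δ _ => ?_
      push_cast
      ring
    rw [Finset.sum_congr rfl fun β _ => h1 β, Finset.sum_comm]
    refine Finset.sum_congr rfl fun c' _ => ?_
    rw [← Finset.sum_mul]
    congr 1
    simp only [M, Int.cast_sum]
  have h2 : Λ ^ e * ∑ i, (k i : O) * ev1 (f i) x = 0 := by
    rw [Finset.mul_sum]
    have h3 : ∀ i, Λ ^ e * ((k i : O) * ev1 (f i) x) = ∑ c' : κ,
        ((k i * M i c' : ℤ) : O) * ((∏ j, w j ^ (c'.2 j : ℕ)) * ∏ l, x l ^ (c'.1 l : ℕ)) := by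
      intro i
      rw [mul_left_comm, key i, Finset.mul_sum]
      refine Finset.sum_congr rfl fun c' _ => ?_
      push_cast
      ring
    rw [Finset.sum_congr rfl fun i _ => h3 i, Finset.sum_comm]
    refine Finset.sum_eq_zero fun c' _ => ?_
    rw [← Finset.sum_mul, ← Int.cast_sum, hk c', Int.cast_zero, zero_mul]
  exact (mul_eq_zero.1 h2).resolve_left (pow_ne_zero e hΛ0)

end Pool.Agent.LRG.H38
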