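import Pool.Agent.LRG.StmtsH

/-!
# Squad LRG, row BDV: a polynomial of bounded degree which controls the bad points
-/

set_option autoImplicit false

open Polynomial

namespace Pool.Agent.LRG.H38

open Pool.Agent.LRG.H

/-- the characteristic polynomial of the multiplication vanishes at every point -/
theorem bdv_det {m k E : ℕ} (M : Matrix (Fin k → Fin (E + 1)) (Fin k → Fin (E + 1))
    (MvPolynomial (Fin m) ℤ)) (Λ : MvPolynomial (Fin m) ℤ) (q : MvPolynomial (Fin (m + k)) ℤ)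
    (O : Type) [CommRing O] (x : Fin (m + k) → O)
    (h : ∀ α, MvPolynomial.aeval x (wp k Λ * q) * zm x α =
      ∑ β, MvPolynomial.aeval (wv x) (M α β) * zm x β) :
    (Matrix.of fun i j : Fin k → Fin (E + 1) =>
      (if i = j then C Λ * X else 0) - C (M i j)).det.eval₂
        (MvPolynomial.eval₂Hom (Int.castRingHom O) (wv x))
        (MvPolynomial.eval₂Hom (Int.castRingHom O) x q) = 0 := by
  set φ : MvPolynomial (Fin m) ℤ →+* O :=
    MvPolynomial.eval₂Hom (Int.castRingHom O) (wv x) with hφ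
  have hφa : ∀ a, MvPolynomial.aeval (wv x) a = φ a := fun a => rfl
  have hψa : MvPolynomial.aeval x q = MvPolynomial.eval₂Hom (Int.castRingHom O) x q := rfl
  set y : O := MvPolynomial.eval₂Hom (Int.castRingHom O) x q with hy
  have hwp : MvPolynomial.aeval x (wp k Λ) = φ Λ := by
    rw [wp, MvPolynomial.aeval_rename]
    rfl
  rw [← coe_eval₂RingHom, RingHom.map_det]
  set A : Matrix (Fin k → Fin (E + 1)) (Fin k → Fin (E + 1)) O :=
    (eval₂RingHom φ y).mapMatrix (Matrix.of fun i j : Fin k → Fin (E + 1) =>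
      (if i = j then C Λ * X else 0) - C (M i j)) with hA
  have hAe : ∀ i j, A i j = (if i = j then φ Λ * y else 0) - φ (M i j) := by
    intro i j
    rw [hA, RingHom.mapMatrix_apply, Matrix.map_apply, Matrix.of_apply, map_sub]
    congr 1
    · split_ifs
      · simp
      · simp
    · simp
  have hz : A.mulVec (fun β => zm x β) = 0 := by
    funext α
    have h1 := h α
    rw [map_mul, hwp, hψa] at h1
    simp only [hφa] at h1
    simp only [Matrix.mulVec, dotProduct, hAe, sub_mul, Finset.sum_sub_distrib, ite_mul, zero_mul,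
      Finset.sum_ite_eq, Finset.mem_univ, if_true, Pi.zero_apply]
    rw [h1]
    exact sub_self _
  have h2 : (A.adjugate * A).mulVec (fun β => zm x β) = 0 := by
    rw [← Matrix.mulVec_mulVec, hz, Matrix.mulVec_zero]
  rw [Matrix.adjugate_mul, Matrix.smul_mulVec, Matrix.one_mulVec] at h2
  have h3 := congrFun h2 (fun _ => 0)
  have h4 : zm x (fun _ : Fin k => (0 : Fin (E + 1))) = 1 := by
    simp [zm]
  simp only [Pi.smul_apply, smul_eq_mul, h4, mul_one, Pi.zero_apply] at h3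
  exact h3

theorem bdv (hMtx : MtxStmt) (hDtd : DtdStmt) : BdvStmt := by
  intro m k E δ
  obtain ⟨D₁, hD₁⟩ := hMtx m k E δ
  refine ⟨Fintype.card (Fin k → Fin (E + 1)) * max D₁ (δ * (k * E)), ?_⟩
  intro p _ G hG q hq
  obtain ⟨M, hM1, hM2⟩ := hD₁ G hG q hq
  set Λ : MvPolynomial (Fin m) ℤ := ∏ j, (G j).leadingCoeff with hΛ
  have hΛ0 : Λ ≠ 0 := Finset.prod_ne_zero_iff.2 fun j _ => leadingCoeff_ne_zero.2 (hG j).1
  have hΛd : Λ.totalDegree ≤ k * E := by
    refine (MvPolynomial.totalDegree_finsetProd _ _).trans ?_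
    calc ∑ j : Fin k, ((G j).leadingCoeff).totalDegree ≤ ∑ _j : Fin k, E :=
          Finset.sum_le_sum fun j _ => (hG j).2.2 _
      _ = k * E := by simp
  have hΛ1 : Λ ^ δ ≠ 0 := pow_ne_zero _ hΛ0
  have hΛ2 : (Λ ^ δ).totalDegree ≤ δ * (k * E) :=
    (MvPolynomial.totalDegree_pow _ _).trans (Nat.mul_le_mul_left _ hΛd)
  obtain ⟨d1, d2⟩ := hDtd m (max D₁ (δ * (k * E))) (Fin k → Fin (E + 1)) M (Λ ^ δ) hΛ1
    (hΛ2.trans (le_max_right _ _)) (fun i j => (hM1 i j).trans (le_max_left _ _))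
  set P : (MvPolynomial (Fin m) ℤ)[X] := (Matrix.of fun i j : Fin k → Fin (E + 1) =>
      (if i = j then C (Λ ^ δ) * X else 0) - C (M i j)).det with hP
  have hwpp : wp k (Λ ^ δ) = wp k Λ ^ δ := by
    simp only [wp, map_pow]
  obtain ⟨P₁, hP₁⟩ : X ^ P.natTrailingDegree ∣ P :=
    X_pow_dvd_iff.2 fun d hd => coeff_eq_zero_of_lt_natTrailingDegree hd
  have hco : P.coeff P.natTrailingDegree = P₁.coeff 0 := by
    have h1 := coeff_X_pow_mul P₁ P.natTrailingDegree 0
    rw [zero_add, ← hP₁] at h1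
    exact h1
  refine ⟨P.coeff P.natTrailingDegree, ?_, d2 _, ?_⟩
  · have h1 := trailingCoeff_nonzero_iff_nonzero.2 d1
    exact h1
  intro x ξ hξ0 hξG hx hξq
  have hgen : ∀ (σ : Type) (φ : MvPolynomial σ ℤ →+* PowerSeries ℤ_[p]) (z : σ → ℤ),
      (∀ i, PowerSeries.constantCoeff (φ (MvPolynomial.X i)) = (z i : ℤ_[p])) →
      ∀ f : MvPolynomial σ ℤ,
      PowerSeries.constantCoeff (φ f) = ((MvPolynomial.eval z f : ℤ) : ℤ_[p]) := by
    intro σ φ z hζ f
    have e1 : (PowerSeries.constantCoeff (R := ℤ_[p])).comp φ =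
        (Int.castRingHom ℤ_[p]).comp (MvPolynomial.eval z) := by
      refine MvPolynomial.ringHom_ext' (RingHom.ext_int _ _) fun i => ?_
      rw [RingHom.comp_apply, RingHom.comp_apply, hζ i, MvPolynomial.eval_X, eq_intCast]
    exact congrArg (fun g : MvPolynomial σ ℤ →+* ℤ_[p] => g f) e1
  set ψ : MvPolynomial (Fin (m + k)) ℤ →+* PowerSeries ℤ_[p] :=
    MvPolynomial.eval₂Hom (Int.castRingHom (PowerSeries ℤ_[p])) ξ with hψ
  have hψX : ∀ i, ψ (MvPolynomial.X i) = ξ i := fun i => MvPolynomial.eval₂Hom_X' _ _ _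
  have hψq : ψ q ≠ 0 := by
    have e1 : (MvPolynomial.aeval ξ : MvPolynomial (Fin (m + k)) ℤ →ₐ[ℤ]
        PowerSeries ℤ_[p]).toRingHom = ψ := by
      refine MvPolynomial.ringHom_ext' (RingHom.ext_int _ _) fun i => ?_
      rw [hψX]
      exact MvPolynomial.aeval_X _ _
    rw [← e1]
    exact hξq
  have h1 := bdv_det M (Λ ^ δ) q (PowerSeries ℤ_[p]) ξ (fun α => by
    rw [hwpp]; exact hM2 _ ξ hξG α)
  rw [← hP, hP₁, eval₂_mul, eval₂_X_pow] at h1
  have h2 := (mul_eq_zero.1 h1).resolve_left (pow_ne_zero _ hψq)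
  have h3 := congrArg (PowerSeries.constantCoeff (R := ℤ_[p])) h2
  rw [hom_eval₂, map_zero] at h3
  have h6 : PowerSeries.constantCoeff (ψ q) = (0 : ℤ_[p]) := by
    rw [hgen _ ψ x (fun i => by rw [hψX]; exact hξ0 i) q, hx, Int.cast_zero]
  rw [← hψ, h6, eval₂_at_zero, ← hco, RingHom.comp_apply] at h3
  rw [hgen _ _ (wv x) (fun i => by rw [MvPolynomial.eval₂Hom_X']; exact hξ0 _)] at h3
  exact_mod_cast h3

end Pool.Agent.LRG.H38
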