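import Pool.Agent.LRG.StmtsE

/-!
# Squad LRG, row BLR: the case of a real block sum
-/

set_option autoImplicit false

open Polynomial NumberField

namespace Pool.Agent.LRG.H38

open Pool.Agent.LRG.E

/-- the generator is an algebraic integer -/
theorem fld_int {r₁ r₂ t : ℕ} {x : Ro r₁ r₂ → ℂ} {K : Type} [Field K] [NumberField K] {θ : K}
    {e : Ro r₁ r₂ ≃ (K →+* ℂ)} (h : Fld r₁ r₂ t x K θ e) : IsIntegral ℤ θ := by
  refine ⟨Gp r₁ r₂ t - 1, ?_, h.root⟩
  refine monic_of_injective (f := Int.castRingHom ℂ) (RingHom.injective_int _) ?_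
  rw [h.rts.prod]
  exact monic_prod_of_monic _ _ fun o _ => monic_X_sub_C _

/-- a proper subfield has smaller degree -/
theorem fr_lt {K : Type} [Field K] [NumberField K] (M : IntermediateField ℚ K) (hM : M ≠ ⊤) :
    Module.finrank ℚ M < Module.finrank ℚ K := by
  refine lt_of_le_of_ne (Submodule.finrank_le M.toSubmodule) fun h => hM ?_
  refine IntermediateField.eq_of_le_of_finrank_eq le_top ?_
  rw [h, IntermediateField.finrank_top']

theorem blr : BlrStmt := by
  intro hTra hBlc hTre hSpc hNiz r₁ r₂ t x K _ _ θ e hF hBig h3 M hM τ₀ h0 τ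
  classical
  have hT := hTra hBlc hTre hSpc r₁ r₂ t x K θ e hF hBig h3 M
  set n : ℕ := r₁ + 2 * r₂ with hn
  set s : M := Algebra.trace M K θ with hs
  set A : ℤ := zre t e M τ₀ with hA
  have hn3 : 3 ≤ n := by omega
  have ht4 : (4 : ℝ) ≤ t := by exact_mod_cast hBig.1
  set κ : ℝ := (n : ℝ) / ((t : ℝ) - 1) ^ (n - 1) with hκ
  have hb1 : 1 ≤ bd r₁ r₂ := by
    unfold bd
    have h5 : (1 : ℝ) ≤ 5 ^ (r₁ + r₂) := one_le_pow₀ (by norm_num)
    linarith
  have hn1 : (1 : ℝ) ≤ n := by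
    have : 1 ≤ n := by omega
    exact_mod_cast this
  have hnb : 1 ≤ (n : ℝ) * bd r₁ r₂ := one_le_mul_of_one_le_of_one_le hn1 hb1
  have hnbt : 1 ≤ (n : ℝ) * bd r₁ r₂ * t :=
    one_le_mul_of_one_le_of_one_le hnb (by linarith)
  set Y : ℝ := 8 * (n : ℝ) * bd r₁ r₂ * t with hY
  have hYe : Y = 8 * ((n : ℝ) * bd r₁ r₂ * t) := by rw [hY]; ring
  have hY1 : 1 ≤ Y := by rw [hYe]; linarith
  have hA0 : ((A : ℂ) + ((zim t e M τ₀ : ℤ) : ℂ) * Complex.I) = (A : ℂ) := by
    rw [h0]; simp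
  obtain ⟨a1, a2, a3, a4⟩ := hT τ₀
  rw [hA0] at a1 a4
  -- the integral element
  have hsi : IsIntegral ℤ s := Algebra.isIntegral_trace (fld_int hF)
  have hai : IsIntegral ℤ (s - (A : M)) := by
    refine hsi.sub ?_
    have h1 : IsIntegral ℤ (algebraMap ℤ M A) := isIntegral_algebraMap
    rwa [eq_intCast] at h1
  have hmap : ∀ σ : M →+* ℂ, σ (s - (A : M)) = σ s - (A : ℂ) := fun σ => by
    rw [map_sub, map_intCast]
  have hlt : ‖∏ σ : M →+* ℂ, σ (s - (A : M))‖ < 1 := by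
    rw [norm_prod, ← Finset.mul_prod_erase Finset.univ _ (Finset.mem_univ τ₀)]
    have h1 : ‖τ₀ (s - (A : M))‖ ≤ κ := by rw [hmap]; exact a1
    have h2 : ∏ σ ∈ Finset.univ.erase τ₀, ‖σ (s - (A : M))‖ ≤ Y ^ (n - 2) := by
      calc ∏ σ ∈ Finset.univ.erase τ₀, ‖σ (s - (A : M))‖ ≤ ∏ _σ ∈ Finset.univ.erase τ₀, Y := by
            refine Finset.prod_le_prod (fun _ _ => norm_nonneg _) fun σ _ => ?_
            rw [hmap, hYe]
            have h3 := (hT σ).2.2.1
            have h4 := norm_sub_le (σ s) (A : ℂ)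
            have h5 : 2 * (n : ℝ) * bd r₁ r₂ * t = 2 * ((n : ℝ) * bd r₁ r₂ * t) := by ring
            rw [h5] at h3
            linarith
        _ = Y ^ (Finset.univ.erase τ₀).card := Finset.prod_const _
        _ ≤ Y ^ (n - 2) := by
            refine pow_le_pow_right₀ hY1 ?_
            rw [Finset.card_erase_of_mem (Finset.mem_univ _), Finset.card_univ,
              NumberField.Embeddings.card M ℂ]
            have h3 := fr_lt M hM
            rw [hF.deg] at h3
            omega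
    have ht1 : 0 < (t : ℝ) - 1 := by linarith
    have hp : 0 < ((t : ℝ) - 1) ^ (n - 1) := pow_pos ht1 _
    calc ‖τ₀ (s - (A : M))‖ * ∏ σ ∈ Finset.univ.erase τ₀, ‖σ (s - (A : M))‖
        ≤ κ * Y ^ (n - 2) :=
          mul_le_mul h1 h2 (Finset.prod_nonneg fun _ _ => norm_nonneg _)
            (div_nonneg (by linarith) hp.le)
      _ = (n : ℝ) * Y ^ (n - 2) / ((t : ℝ) - 1) ^ (n - 1) := by rw [hκ]; ring
      _ < 1 := by
          rw [div_lt_one hp]
          exact hBig.2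
  have hzero : s = (A : M) := sub_eq_zero.1 (hNiz M _ hai hlt)
  obtain ⟨b1, b2, b3, b4⟩ := hT τ
  rw [hzero, map_intCast] at b1
  have b5 := b1.trans_lt b2
  have c1 : |(A : ℝ) - (zre t e M τ : ℝ)| < 1 / 2 := by
    have h1 := Complex.abs_re_le_norm ((A : ℂ) - ((zre t e M τ : ℂ) + (zim t e M τ : ℂ) * Complex.I))
    have h2 : ((A : ℂ) - ((zre t e M τ : ℂ) + (zim t e M τ : ℂ) * Complex.I)).re =
        (A : ℝ) - (zre t e M τ : ℝ) := by simp
    rw [h2] at h1
    exact h1.trans_lt b5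
  have c2 : |(zim t e M τ : ℝ)| < 1 / 2 := by
    have h1 := Complex.abs_im_le_norm ((A : ℂ) - ((zre t e M τ : ℂ) + (zim t e M τ : ℂ) * Complex.I))
    have h2 : ((A : ℂ) - ((zre t e M τ : ℂ) + (zim t e M τ : ℂ) * Complex.I)).im =
        - (zim t e M τ : ℝ) := by simp
    rw [h2, abs_neg] at h1
    exact h1.trans_lt b5
  constructor
  · have h1 : |A - zre t e M τ| < 1 := by
      have : (|A - zre t e M τ| : ℝ) < 1 := by
        calc |(A : ℝ) - (zre t e M τ : ℝ)| < 1 / 2 := c1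
          _ < 1 := by norm_num
      exact_mod_cast this
    have h2 := Int.abs_lt_one_iff.1 h1
    omega
  · have h1 : |zim t e M τ| < 1 := by
      have : |(zim t e M τ : ℝ)| < 1 := c2.trans (by norm_num)
      exact_mod_cast this
    exact Int.abs_lt_one_iff.1 h1

end Pool.Agent.LRG.H38
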