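import Pool.Agent.LRG.StmtsZ

/-!
# Squad LRG, row UPR: the upper bound for the bad fields
-/

set_option autoImplicit false

open Polynomial NumberField
open Pool.Agent.Helper85_Leo (LeopoldtAt)

namespace Pool.Agent.LRG.H38

/-- degree and unit rank of a field of signature `(r₁, r₂)` -/
theorem sig {r₁ r₂ : ℕ} (K : Type) [Field K] [NumberField K]
    (h1 : InfinitePlace.nrRealPlaces K = r₁) (h2 : InfinitePlace.nrComplexPlaces K = r₂) :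
    Module.finrank ℚ K = r₁ + 2 * r₂ ∧ Units.rank K = r₁ + r₂ - 1 := by
  constructor
  · rw [← InfinitePlace.card_add_two_mul_card_eq_rank K, h1, h2]
  · unfold Units.rank
    rw [InfinitePlace.card_eq_nrRealPlaces_add_nrComplexPlaces, h1, h2]

theorem upr : UprStmt := by
  intro hO hR hC p _ r₁ r₂ h3 ε hε
  have hn : 1 < r₁ + 2 * r₂ := by omega
  have hr : 0 < r₁ + r₂ - 1 := by omega
  have hrc : ((r₁ + r₂ - 1 : ℕ) : ℝ) = (r₁ : ℝ) + r₂ - 1 := by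
    rw [Nat.cast_sub (by omega)]; push_cast; ring
  obtain ⟨C₁, hC₁⟩ := hO (r₁ + 2 * r₂) hn
  set A : ℝ := max C₁ 1 with hA
  have hA1 : 1 ≤ A := le_max_right _ _
  have hA0 : 0 < A := lt_of_lt_of_le one_pos hA1
  obtain ⟨H, hH0, hH⟩ := hR (r₁ + 2 * r₂) (r₁ + r₂ - 1) hr hn (ε / A) (div_pos hε hA0)
  obtain ⟨C₂, hC₂⟩ := hC p (r₁ + 2 * r₂) (r₁ + r₂ - 1) (ε / H) (div_pos hε hH0) hr hn
  -- the bound for `T ≥ 1`
  have key : ∀ T : ℝ, 1 ≤ T → (PrimReg r₁ r₂ T ∩ Bad p).Finite ∧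
      ((PrimReg r₁ r₂ T ∩ Bad p).ncard : ℝ) ≤
        (A + C₂) * Real.exp (ε * T ^ (1 / ((r₁ : ℝ) + r₂ - 1))) := by
    intro T hT
    rw [← hrc]
    set τ : ℝ := T ^ (1 / ((r₁ + r₂ - 1 : ℕ) : ℝ)) with hτ
    have hτ0 : 0 ≤ τ := Real.rpow_nonneg (by linarith) _
    have hX : 1 ≤ Real.exp (ε / A * τ) :=
      Real.one_le_exp (mul_nonneg (div_pos hε hA0).le hτ0)
    have hY : 1 ≤ Real.exp (H * τ) := Real.one_le_exp (mul_nonneg hH0.le hτ0)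
    obtain ⟨f1, b1⟩ := hC₁ _ hX
    obtain ⟨f2, b2⟩ := hC₂ _ hY
    have hsub : PrimReg r₁ r₂ T ∩ Bad p ⊆ OneFlds (r₁ + 2 * r₂) (Real.exp (ε / A * τ)) ∪
        (ShortFlds (r₁ + 2 * r₂) (r₁ + r₂ - 1) (Real.exp (H * τ)) ∩ Bad p) := by
      rintro K ⟨⟨i1, k1, k2, k3, k4⟩, hb⟩
      obtain ⟨s1, s2⟩ := sig K k1 k2
      rcases hH K T hT s1 s2 k4 with ⟨u, u1, u2⟩ | ⟨u, u1, u2⟩
      · exact Or.inl ⟨i1, s1, k3, u, u1, u2⟩
      · exact Or.inr ⟨⟨i1, s1, s2, k3, u, u1, u2⟩, hb⟩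
    refine ⟨(f1.union f2).subset hsub, ?_⟩
    have h1 : ((PrimReg r₁ r₂ T ∩ Bad p).ncard : ℝ) ≤
        ((OneFlds (r₁ + 2 * r₂) (Real.exp (ε / A * τ))).ncard : ℝ) +
        ((ShortFlds (r₁ + 2 * r₂) (r₁ + r₂ - 1) (Real.exp (H * τ)) ∩ Bad p).ncard : ℝ) := by
      have h2 := (Set.ncard_le_ncard hsub (f1.union f2)).trans (Set.ncard_union_le _ _)
      exact_mod_cast h2
    have e1 : C₁ * Real.exp (ε / A * τ) ^ C₁ ≤ A * Real.exp (ε * τ) := by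
      have h2 : Real.exp (ε / A * τ) ^ C₁ ≤ Real.exp (ε / A * τ) ^ A :=
        Real.rpow_le_rpow_of_exponent_le hX (le_max_left _ _)
      have h4 : Real.exp (ε / A * τ) ^ A = Real.exp (ε * τ) := by
        rw [← Real.exp_mul]
        congr 1
        field_simp
      rw [h4] at h2
      have h5 : 0 ≤ Real.exp (ε / A * τ) ^ C₁ := Real.rpow_nonneg (Real.exp_pos _).le _
      calc C₁ * Real.exp (ε / A * τ) ^ C₁ ≤ A * Real.exp (ε / A * τ) ^ C₁ :=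
            mul_le_mul_of_nonneg_right (le_max_left _ _) h5
        _ ≤ A * Real.exp (ε * τ) := mul_le_mul_of_nonneg_left h2 hA0.le
    have e2 : Real.exp (H * τ) ^ (ε / H) = Real.exp (ε * τ) := by
      rw [← Real.exp_mul]
      congr 1
      field_simp
    rw [e2] at b2
    calc ((PrimReg r₁ r₂ T ∩ Bad p).ncard : ℝ) ≤ _ := h1
      _ ≤ A * Real.exp (ε * τ) + C₂ * Real.exp (ε * τ) := add_le_add (b1.trans e1) b2
      _ = (A + C₂) * Real.exp (ε * τ) := by ring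
  refine ⟨|A + C₂| * Real.exp ε, fun T hT => ?_⟩
  have hE : 1 ≤ Real.exp ε := Real.one_le_exp hε.le
  rcases le_total 1 T with h | h
  · refine (key T h).2.trans (mul_le_mul_of_nonneg_right ?_ (Real.exp_pos _).le)
    calc A + C₂ ≤ |A + C₂| := le_abs_self _
      _ = |A + C₂| * 1 := (mul_one _).symm
      _ ≤ |A + C₂| * Real.exp ε := mul_le_mul_of_nonneg_left hE (abs_nonneg _)
  · obtain ⟨f, b⟩ := key 1 le_rfl
    have hsub : PrimReg r₁ r₂ T ∩ Bad p ⊆ PrimReg r₁ r₂ 1 ∩ Bad p := by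
      rintro K ⟨⟨i1, k1, k2, k3, k4⟩, hb⟩
      exact ⟨⟨i1, k1, k2, k3, k4.trans h⟩, hb⟩
    have h1 : ((PrimReg r₁ r₂ T ∩ Bad p).ncard : ℝ) ≤ ((PrimReg r₁ r₂ 1 ∩ Bad p).ncard : ℝ) := by
      exact_mod_cast Set.ncard_le_ncard hsub f
    rw [Real.one_rpow, mul_one] at b
    have hE2 : 1 ≤ Real.exp (ε * T ^ (1 / ((r₁ : ℝ) + r₂ - 1))) :=
      Real.one_le_exp (mul_nonneg hε.le (Real.rpow_nonneg hT _))
    calc ((PrimReg r₁ r₂ T ∩ Bad p).ncard : ℝ) ≤ (A + C₂) * Real.exp ε := h1.trans b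
      _ ≤ |A + C₂| * Real.exp ε := mul_le_mul_of_nonneg_right (le_abs_self _) (Real.exp_pos _).le
      _ = |A + C₂| * Real.exp ε * 1 := (mul_one _).symm
      _ ≤ |A + C₂| * Real.exp ε * Real.exp (ε * T ^ (1 / ((r₁ : ℝ) + r₂ - 1))) :=
          mul_le_mul_of_nonneg_left hE2 (mul_nonneg (abs_nonneg _) (Real.exp_pos _).le)

end Pool.Agent.LRG.H38
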